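import Pool.Agent.H198R3.Form11

/-!
# Formations all of whose subformations are closed under normal subgroups

Let `F` be a formation of finite groups such that every subformation of `F` is closed under
normal subgroups.  Then every abelian chief factor of a group `G ∈ F` is central (a minimal
counterexample has the form `V ⋊ A` with `A` simple and `C(V) = V`; it lies in the formation of
the groups of `F` without central chief factors of order `p`, and `V` does not), `G` modulo its
hypercentre has no abelian chief factors, and quotients with nonabelian monolith of normal
subgroups of `G` are quotients of `G`.  Conversely, `G` is then the central product of its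
hypercentre `Z` and of its soluble residual `E`; both `Z` and `E` lie in every formation
containing `G`, and subgroups of `Z` do by a theorem of Neumann, proved here with cubes (a subgroup
`M` of a nilpotent group `G` is the image, under evaluation at one vertex, of a subdirect subgroup
of a power of `G`).  This reduces the problem to perfect normal subgroups of perfect groups, and
solves it when the perfect groups in `F` have trivial centre; for soluble groups the answer is
that all groups in `F` are nilpotent.
-/

namespace Pool.Agent.Results.MP_518fb6_al.SubformationsNormallyClosed

open Pool.Agent.H198R3.Form

/-- The formations all of whose subformations are closed under normal subgroups: reduction to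
perfect groups, and a characterisation when the perfect groups in `F` have trivial centre, when
all groups in `F` are soluble, and when all groups in `F` are perfect. -/
theorem result (F : GroupClass) (hF : IsFormation F) :
    (AllSubSnClosed F ↔ StructCond F ∧ QuotCond F ∧ CentralCond F) ∧
    (AllSubSnClosed F → ∀ (G : Type) [Group G], F G →
      ∀ V : Subgroup G, V.Normal → Group.IsSolvable V →
        ∃ m : ℕ, V ≤ Subgroup.upperCentralSeries G m) ∧
    ((∀ (G : Type) [Group G], F G → commutator G = ⊤ → Subgroup.center G = ⊥) →
      (AllSubSnClosed F ↔ StructCond F ∧ QuotCond F)) ∧
    ((∀ (G : Type) [Group G], F G → Group.IsSolvable G) →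
      (AllSubSnClosed F ↔ ∀ (G : Type) [Group G], F G → Group.IsNilpotent G)) ∧
    ((∀ (G : Type) [Group G], F G → commutator G = ⊤) →
      (AllSubSnClosed F ↔ ∀ (G : Type) [Group G], F G → ∀ N : Subgroup G, N.Normal →
        ∀ (R : Type) [Group R], Monolithic R → ∀ f : N →* R, Function.Surjective f →
          ∃ g : G →* R, Function.Surjective g)) ∧
    ((∀ (G : Type) [Group G], F G → DirectType G) → (AllSubSnClosed F ↔ QuotCond F)) := by
  refine ⟨reduction hF, fun hP G _ hG V hV hs => hypercentral hF hP _ G hG rfl V hV hs,
    centreless_iff hF, soluble_iff hF, perfect_iff hF, direct_iff hF⟩

end Pool.Agent.Results.MP_518fb6_al.SubformationsNormallyClosed
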