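import Pool.Agent.H463R4.FO.Pow

set_option autoImplicit false

/-! # Formations all of whose subformations are closed under normal subgroups

Authors: helper206 (first necessary conditions, `centralMin`), helper172 (prime quotients, no abelian
composition factors), helper463 (Neumann's theorem, sufficiency, structure, assembly), helper198. -/

namespace Pool.Agent.Results.MP_518fb6_al.SubformationsSnClosed

open Pool.Agent.H463R4.FO Pool.Agent.H172.Form

/-- Let `F` be a formation of finite groups.
(a) Every subformation of `F` is `S_n`-closed if and only if every `G ∈ F` satisfies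
  (1) for some `n`, every subnormal subgroup of `G / Z_n(G)` is perfect,
  (2) every quotient `M` of a normal subgroup of `G` in which no two nontrivial normal subgroups commute
      is a quotient of `G`,
  (3) every quotient with a central monolith of a perfect normal subgroup of `G` is a quotient of a
      subgroup of a finite power of `G` that projects onto every coordinate.
(b) The same with (1) and: every perfect normal subgroup of `G` is a quotient of a subgroup of a finite
  power of `G` that projects onto every coordinate.
(c) If all groups of `F` are soluble, the property holds iff all groups of `F` are nilpotent.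
(d) If no group of `F` has an abelian composition factor, the property holds iff (2) holds for all `G ∈ F`. -/
theorem result (F : ∀ (G : Type) [Group G], Prop) (hF : IsFormation F) :
    (AllSubSn F ↔ ∀ (G : Type) [Group G], F G →
      (∃ n, NoAbelian (G ⧸ Subgroup.upperCentralSeries G n)) ∧
      (∀ N : Subgroup G, N.Normal → ∀ (M : Type) [Group M], IsPrimeGroup M → IsQuot M N →
        IsQuot M G) ∧
      (∀ P : Subgroup G, P.Normal → ⁅P, P⁆ = P → ∀ (Q : Type) [Group Q], CentralMonolith Q →
        IsQuot Q P → SubPow G Q)) ∧
    (AllSubSn F ↔ ∀ (G : Type) [Group G], F G →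
      (∃ n, NoAbelian (G ⧸ Subgroup.upperCentralSeries G n)) ∧
      ∀ P : Subgroup G, P.Normal → ⁅P, P⁆ = P → SubPow G P) ∧
    ((∀ (G : Type) [Group G], F G → Group.IsSolvable G) →
      (AllSubSn F ↔ ∀ (G : Type) [Group G], F G → Group.IsNilpotent G)) ∧
    ((∀ (G : Type) [Group G], F G → NoAbelian G) →
      (AllSubSn F ↔ ∀ (G : Type) [Group G], F G → ∀ N : Subgroup G, N.Normal →
        ∀ (M : Type) [Group M], IsPrimeGroup M → IsQuot M N → IsQuot M G)) := by
  refine ⟨?_, ?_, soluble_iff centralProp F hF, noAbelian_iff F hF⟩
  · rw [main_refined centralProp F hF]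
    constructor
    · intro h G _ hG
      haveI := hF.fin G hG
      obtain ⟨h1, h2, h3⟩ := h G hG
      exact ⟨h1, h2, fun P hP hPP Q _ hQ q => (inForm_iff G Q).1 (h3 P hP hPP Q hQ q)⟩
    · intro h G _ hG
      haveI := hF.fin G hG
      obtain ⟨h1, h2, h3⟩ := h G hG
      exact ⟨h1, h2, fun P hP hPP Q _ hQ q => (inForm_iff G Q).2 (h3 P hP hPP Q hQ q)⟩
  · constructor
    · intro h G _ hG
      haveI := hF.fin G hG
      exact ⟨((main_refined centralProp F hF).1 h G hG).1, fun P hP hPP =>
        (inForm_iff G P).1 (((main_iff centralProp F hF).1 h G hG).2 P hP hPP)⟩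
    · intro h
      refine (main_iff centralProp F hF).2 (fun G _ hG => ?_)
      haveI := hF.fin G hG
      obtain ⟨⟨n, hn⟩, h2⟩ := h G hG
      exact ⟨⟨n, Pool.Agent.H463R4.FO.NoAbelian.normPerfect hn⟩,
        fun P hP hPP => (inForm_iff G P).2 (h2 P hP hPP)⟩

end Pool.Agent.Results.MP_518fb6_al.SubformationsSnClosed
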